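import Pool.Agent.J4H87.K5.Stm

/-!
# Project K5, (FIN): the asymptotics
-/

set_option autoImplicit false

namespace Pool.Agent.J4H68.K5

open Finset Filter Topology
open scoped Classical
open Pool.Agent.J4H87.K5

theorem pr_nonneg {n : ℕ} (E : Om n → Prop) : 0 ≤ pr E := by
  unfold pr
  positivity

theorem choose_ge {n : ℕ} (hn : 2 ≤ n) : (n : ℝ) ^ 2 / 4 ≤ (n.choose 2 : ℝ) := by
  have h : (n.choose 2 : ℝ) = n * (n - 1) / 2 := Nat.cast_choose_two ℝ n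
  rw [h]
  have h2 : (2 : ℝ) ≤ n := by exact_mod_cast hn
  nlinarith

theorem rho_nonneg {n t : ℕ} (h : 2 * t ≤ n.choose 2) : 0 ≤ rho n t := by
  unfold rho
  have h1 : (2 : ℝ) * t ≤ n.choose 2 := by exact_mod_cast h
  have h2 : (0 : ℝ) ≤ t := Nat.cast_nonneg t
  exact div_nonneg h2 (by linarith)

theorem rho_le {n t : ℕ} (hn : 2 ≤ n) (h : 2 * t ≤ n.choose 2) :
    rho n t ≤ 8 * (t : ℝ) / (n : ℝ) ^ 2 := by
  unfold rho
  have h1 : (2 : ℝ) * t ≤ n.choose 2 := by exact_mod_cast h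
  have h2 := choose_ge hn
  have ht : (0 : ℝ) ≤ t := Nat.cast_nonneg t
  have hn0 : (0 : ℝ) < n := by
    have : 0 < n := by omega
    exact_mod_cast this
  have h3 : (n : ℝ) ^ 2 / 8 ≤ n.choose 2 - t := by linarith
  have h4 : 0 < (n : ℝ) ^ 2 := by positivity
  have h5 : (0 : ℝ) < n.choose 2 - t := by linarith
  rw [div_le_div_iff₀ h5 h4]
  nlinarith

/-- from (Q1) -/
theorem b1 (hQ : S_Q1) {n t : ℕ} (hn : 2 ≤ n) (h : 2 * t ≤ n.choose 2)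
    (A : List (Sym2 (Fin n)) → Prop) :
    pr (fun ω : Om n => HasK5 (bt A ω t)) ≤ (8 * ((t : ℝ) / (n : ℝ) ^ ((3 : ℝ) / 2))) ^ 10 := by
  refine (hQ n t A h).trans ?_
  have hn0 : (0 : ℝ) < n := by
    have : 0 < n := by omega
    exact_mod_cast this
  have hs : ((n : ℝ) ^ ((3 : ℝ) / 2)) ^ 10 = (n : ℝ) ^ 15 := by
    rw [← Real.rpow_natCast, ← Real.rpow_mul hn0.le, ← Real.rpow_natCast]
    norm_num
  rw [mul_pow, div_pow, hs]
  have h1 : rho n t ^ 10 ≤ (8 * (t : ℝ) / (n : ℝ) ^ 2) ^ 10 :=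
    pow_le_pow_left₀ (rho_nonneg h) (rho_le hn h) 10
  calc (n : ℝ) ^ 5 * rho n t ^ 10 ≤ (n : ℝ) ^ 5 * (8 * (t : ℝ) / (n : ℝ) ^ 2) ^ 10 :=
        mul_le_mul_of_nonneg_left h1 (by positivity)
    _ = _ := by
        field_simp

theorem vcube {x : ℝ} (hx : 0 ≤ x) : (x ^ ((5 : ℝ) / 3)) ^ 3 = x ^ 5 := by
  rw [← Real.rpow_natCast, ← Real.rpow_mul hx, ← Real.rpow_natCast]
  norm_num

/-- from (Q2) -/
theorem b2 {C : ℝ} (hC : 0 < C) {n t b : ℕ} (hn : 2 ≤ n) (ht : 0 < t) (h : 2 * t ≤ n.choose 2)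
    {P : ℝ} (hP : P ≤ C * (b : ℝ) ^ 3 * rho n t ^ 5) :
    P ≤ C * 8 ^ 5 * ((b : ℝ) / ((n : ℝ) ^ 2 / t) ^ ((5 : ℝ) / 3)) ^ 3 := by
  refine hP.trans ?_
  have hn0 : (0 : ℝ) < n := by
    have : 0 < n := by omega
    exact_mod_cast this
  have ht0 : (0 : ℝ) < t := by exact_mod_cast ht
  rw [div_pow, vcube (by positivity)]
  have h1 : rho n t ^ 5 ≤ (8 * (t : ℝ) / (n : ℝ) ^ 2) ^ 5 :=
    pow_le_pow_left₀ (rho_nonneg h) (rho_le hn h) 5
  calc C * (b : ℝ) ^ 3 * rho n t ^ 5 ≤ C * (b : ℝ) ^ 3 * (8 * (t : ℝ) / (n : ℝ) ^ 2) ^ 5 :=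
        mul_le_mul_of_nonneg_left h1 (by positivity)
    _ = _ := by
        field_simp

theorem pow16 {n t : ℕ} (h : (t : ℝ) ≤ (n : ℝ) ^ ((13 : ℝ) / 8)) : (t : ℝ) ^ 16 ≤ (n : ℝ) ^ 26 := by
  have h1 := pow_le_pow_left₀ (Nat.cast_nonneg t) h 16
  have h2 : ((n : ℝ) ^ ((13 : ℝ) / 8)) ^ 16 = (n : ℝ) ^ 26 := by
    rw [← Real.rpow_natCast, ← Real.rpow_mul (Nat.cast_nonneg n), ← Real.rpow_natCast]
    norm_num
  rwa [h2] at h1

theorem pow16' {n t : ℕ} (h : (n : ℝ) ^ ((13 : ℝ) / 8) ≤ (t : ℝ)) : (n : ℝ) ^ 26 ≤ (t : ℝ) ^ 16 := by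
  have h1 := pow_le_pow_left₀ (by positivity) h 16
  have h2 : ((n : ℝ) ^ ((13 : ℝ) / 8)) ^ 16 = (n : ℝ) ^ 26 := by
    rw [← Real.rpow_natCast, ← Real.rpow_mul (Nat.cast_nonneg n), ← Real.rpow_natCast]
    norm_num
  rwa [h2] at h1

/-- the first value is the maximum -/
theorem phi1 {n t : ℕ} (hn : 0 < n) (ht : 0 < t) (h : (t : ℝ) ≤ (n : ℝ) ^ ((13 : ℝ) / 8)) :
    Phi n t = (n : ℝ) ^ 12 / (t : ℝ) ^ 7 := by
  have hn0 : (0 : ℝ) < n := by exact_mod_cast hn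
  have ht0 : (0 : ℝ) < t := by exact_mod_cast ht
  unfold Phi
  apply max_eq_left
  have h1 := pow16 h
  have h2 : (((n : ℝ) ^ 2 / t) ^ ((5 : ℝ) / 3)) ^ 3 ≤ ((n : ℝ) ^ 12 / (t : ℝ) ^ 7) ^ 3 := by
    rw [vcube (by positivity), div_pow, div_pow, div_le_div_iff₀ (by positivity) (by positivity)]
    calc ((n : ℝ) ^ 2) ^ 5 * ((t : ℝ) ^ 7) ^ 3 = ((n : ℝ) ^ 10 * (t : ℝ) ^ 5) * (t : ℝ) ^ 16 := by ring
      _ ≤ ((n : ℝ) ^ 10 * (t : ℝ) ^ 5) * (n : ℝ) ^ 26 := mul_le_mul_of_nonneg_left h1 (by positivity)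
      _ = _ := by ring
  exact (pow_le_pow_iff_left₀ (by positivity) (by positivity) (by norm_num)).1 h2

/-- the second value is the maximum -/
theorem phi2 {n t : ℕ} (hn : 0 < n) (ht : 0 < t) (h : (n : ℝ) ^ ((13 : ℝ) / 8) ≤ (t : ℝ)) :
    Phi n t = ((n : ℝ) ^ 2 / t) ^ ((5 : ℝ) / 3) := by
  have hn0 : (0 : ℝ) < n := by exact_mod_cast hn
  have ht0 : (0 : ℝ) < t := by exact_mod_cast ht
  unfold Phi
  apply max_eq_right
  have h1 := pow16' h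
  have h2 : ((n : ℝ) ^ 12 / (t : ℝ) ^ 7) ^ 3 ≤ (((n : ℝ) ^ 2 / t) ^ ((5 : ℝ) / 3)) ^ 3 := by
    rw [vcube (by positivity), div_pow, div_pow, div_le_div_iff₀ (by positivity) (by positivity)]
    calc ((n : ℝ) ^ 12) ^ 3 * (t : ℝ) ^ 5 = ((n : ℝ) ^ 10 * (t : ℝ) ^ 5) * (n : ℝ) ^ 26 := by ring
      _ ≤ ((n : ℝ) ^ 10 * (t : ℝ) ^ 5) * (t : ℝ) ^ 16 := mul_le_mul_of_nonneg_left h1 (by positivity)
      _ = _ := by ring
  exact (pow_le_pow_iff_left₀ (by positivity) (by positivity) (by norm_num)).1 h2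

/-- `Phi` is bounded if `t` is at least `M / 2` -/
theorem phi_le {n t : ℕ} (hn : 2 ≤ n) (h : n.choose 2 ≤ 2 * t) : Phi n t ≤ 8 ^ 7 := by
  have hn0 : (1 : ℝ) ≤ n := by
    have : 1 ≤ n := by omega
    exact_mod_cast this
  have h1 : (n.choose 2 : ℝ) ≤ 2 * t := by exact_mod_cast h
  have h2 := choose_ge hn
  have h3 : (n : ℝ) ^ 2 / 8 ≤ t := by linarith
  have h4 : 0 < (n : ℝ) ^ 2 / 8 := by positivity
  have ht0 : (0 : ℝ) < t := by linarith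
  unfold Phi
  apply max_le
  · rw [div_le_iff₀ (by positivity)]
    have h5 : ((n : ℝ) ^ 2 / 8) ^ 7 ≤ (t : ℝ) ^ 7 := pow_le_pow_left₀ h4.le h3 7
    have h6 : (n : ℝ) ^ 12 ≤ (n : ℝ) ^ 14 := pow_le_pow_right₀ hn0 (by norm_num)
    calc (n : ℝ) ^ 12 ≤ (n : ℝ) ^ 14 := h6
      _ = 8 ^ 7 * ((n : ℝ) ^ 2 / 8) ^ 7 := by ring
      _ ≤ _ := mul_le_mul_of_nonneg_left h5 (by positivity)
  · have h5 : (n : ℝ) ^ 2 / t ≤ 8 := by
      rw [div_le_iff₀ ht0]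
      linarith
    calc ((n : ℝ) ^ 2 / t) ^ ((5 : ℝ) / 3) ≤ (8 : ℝ) ^ ((5 : ℝ) / 3) :=
          Real.rpow_le_rpow (by positivity) h5 (by norm_num)
      _ ≤ (8 : ℝ) ^ (7 : ℝ) := Real.rpow_le_rpow_of_exponent_le (by norm_num) (by norm_num)
      _ = 8 ^ 7 := by
          rw [← Real.rpow_natCast]
          norm_num

theorem phi_pos {n t : ℕ} (hn : 0 < n) (ht : 0 < t) : 0 < Phi n t := by
  have hn0 : (0 : ℝ) < n := by exact_mod_cast hn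
  have ht0 : (0 : ℝ) < t := by exact_mod_cast ht
  unfold Phi
  exact lt_max_of_lt_left (by positivity)

/-- **(FIN)** -/
theorem t_FIN : S_Q1 → S_Q2 → S_Q3 → S_THM := by
  intro hQ1 hQ2 hQ3 t b A hb hA hlim
  rcases hlim with hlim | hlim
  · -- `t = o(n^{3/2})`
    have h1 : Tendsto (fun n : ℕ => (8 * ((t n : ℝ) / (n : ℝ) ^ ((3 : ℝ) / 2))) ^ 10) atTop (𝓝 0) := by
      have h2 := (hlim.const_mul 8).pow 10
      simpa using h2
    refine squeeze_zero' (Eventually.of_forall fun n => pr_nonneg _) ?_ h1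
    have h3 := (tendsto_order.1 hlim).2 (1 / 8) (by norm_num)
    filter_upwards [h3, eventually_ge_atTop 2] with n hn hn2
    have hn0 : (1 : ℝ) ≤ n := by
      have : 1 ≤ n := by omega
      exact_mod_cast this
    have h4 : (2 * t n : ℝ) ≤ n.choose 2 := by
      have h5 : (t n : ℝ) < 1 / 8 * (n : ℝ) ^ ((3 : ℝ) / 2) := by
        rwa [div_lt_iff₀ (by positivity)] at hn
      have h6 : (n : ℝ) ^ ((3 : ℝ) / 2) ≤ (n : ℝ) ^ (2 : ℝ) :=
        Real.rpow_le_rpow_of_exponent_le hn0 (by norm_num)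
      have h7 : (n : ℝ) ^ (2 : ℝ) = (n : ℝ) ^ 2 := by
        rw [← Real.rpow_natCast]
        norm_num
      have h8 := choose_ge hn2
      rw [h7] at h6
      linarith
    exact b1 hQ1 hn2 (by exact_mod_cast h4) (A n)
  · -- `b = o(Phi)`
    rw [tendsto_order]
    refine ⟨fun a ha => Eventually.of_forall fun n => lt_of_lt_of_le ha (pr_nonneg _), ?_⟩
    intro ε hε
    obtain ⟨C2, hC2, hQ2⟩ := hQ2
    set η : ℝ := min 1 ε / 16 with hη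
    have hη0 : 0 < η := by
      have : 0 < min 1 ε := lt_min one_pos hε
      positivity
    obtain ⟨C3, hC3, hQ3⟩ := hQ3 η hη0
    obtain ⟨δ, hδ0, hδ1, hδ2, hδ3, hδ4⟩ : ∃ δ : ℝ, 0 < δ ∧ δ ≤ 1 ∧ δ ≤ 1 / 8 ^ 7 ∧ C3 * δ ≤ ε / 2 ∧
        C2 * 8 ^ 5 * δ ≤ ε / 2 := by
      refine ⟨min (1 / 8 ^ 7) (min (ε / (2 * C3)) (ε / (2 * (C2 * 8 ^ 5)))), ?_, ?_, ?_, ?_, ?_⟩
      · exact lt_min (by positivity) (lt_min (by positivity) (by positivity))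
      · exact (min_le_left _ _).trans (by norm_num)
      · exact min_le_left _ _
      · calc C3 * min (1 / 8 ^ 7) (min (ε / (2 * C3)) (ε / (2 * (C2 * 8 ^ 5)))) ≤
            C3 * (ε / (2 * C3)) :=
            mul_le_mul_of_nonneg_left ((min_le_right _ _).trans (min_le_left _ _)) hC3.le
          _ = ε / 2 := by field_simp
      · calc C2 * 8 ^ 5 * min (1 / 8 ^ 7) (min (ε / (2 * C3)) (ε / (2 * (C2 * 8 ^ 5)))) ≤
            C2 * 8 ^ 5 * (ε / (2 * (C2 * 8 ^ 5))) :=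
            mul_le_mul_of_nonneg_left ((min_le_right _ _).trans (min_le_right _ _)) (by positivity)
          _ = ε / 2 := by field_simp
    have h2n : Tendsto (fun n : ℕ => 2 / (n : ℝ)) atTop (𝓝 0) :=
      tendsto_const_div_atTop_nhds_zero_nat 2
    filter_upwards [hb, (tendsto_order.1 hlim).2 δ hδ0, eventually_ge_atTop 2, hQ3,
      (tendsto_order.1 h2n).2 (ε / 2) (by linarith)] with n hbn hn hn2 hq3 h2
    have hn0 : 0 < n := by omega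
    have ht0 : 0 < t n := by omega
    have hnr : (0 : ℝ) < n := by exact_mod_cast hn0
    have htr : (0 : ℝ) < t n := by exact_mod_cast ht0
    have hb1 : (1 : ℝ) ≤ b n := by exact_mod_cast hbn.1
    have hph := phi_pos hn0 ht0
    -- `2 t ≤ M`
    have hM : 2 * t n ≤ n.choose 2 := by
      by_contra hc
      have h3 := phi_le hn2 (t := t n) (by omega)
      rw [div_lt_iff₀ hph] at hn
      have h4 : δ * Phi n (t n) ≤ 1 / 8 ^ 7 * 8 ^ 7 := by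
        apply mul_le_mul hδ2 h3 hph.le (by positivity)
      have h5 : (1 : ℝ) / 8 ^ 7 * 8 ^ 7 = 1 := by norm_num
      linarith
    have hs0 : 0 < (n : ℝ) ^ ((3 : ℝ) / 2) := by positivity
    by_cases hc1 : (t n : ℝ) ≤ η * (n : ℝ) ^ ((3 : ℝ) / 2)
    · refine lt_of_le_of_lt (b1 hQ1 hn2 hM (A n)) ?_
      have h3 : (t n : ℝ) / (n : ℝ) ^ ((3 : ℝ) / 2) ≤ η := by
        rwa [div_le_iff₀ hs0]
      have h4 : 8 * ((t n : ℝ) / (n : ℝ) ^ ((3 : ℝ) / 2)) ≤ min 1 ε / 2 := by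
        rw [hη] at h3
        linarith
      have h5 : 0 ≤ 8 * ((t n : ℝ) / (n : ℝ) ^ ((3 : ℝ) / 2)) := by positivity
      have h6 : 8 * ((t n : ℝ) / (n : ℝ) ^ ((3 : ℝ) / 2)) ≤ 1 := by
        have := min_le_left 1 ε
        linarith
      have h7 := pow_le_of_le_one h5 h6 (n := 10) (by norm_num)
      have h8 := min_le_right 1 ε
      linarith
    · by_cases hc2 : (t n : ℝ) ≤ (n : ℝ) ^ ((13 : ℝ) / 8)
      · have h3 := phi1 hn0 ht0 hc2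
        rw [h3] at hn
        have h4 : (b n : ℝ) / ((n : ℝ) ^ 12 / (t n : ℝ) ^ 7) =
            (b n : ℝ) * (t n : ℝ) ^ 7 / (n : ℝ) ^ 12 := by
          field_simp
        rw [h4] at hn
        have h5 : (b n : ℝ) * (t n : ℝ) ^ 7 ≤ (n : ℝ) ^ 12 := by
          have h6 : (b n : ℝ) * (t n : ℝ) ^ 7 / (n : ℝ) ^ 12 ≤ 1 := hn.le.trans hδ1
          rwa [div_le_one (by positivity)] at h6
        have h6 := hq3 (t n) (b n) (A n) (not_le.1 hc1).le hc2 h5 (hA n)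
        have h7 : C3 * ((b n : ℝ) * (t n : ℝ) ^ 7 / (n : ℝ) ^ 12) ≤ C3 * δ :=
          mul_le_mul_of_nonneg_left hn.le hC3.le
        linarith
      · have h3 := phi2 hn0 ht0 (not_le.1 hc2).le
        rw [h3] at hn
        have h4 := b2 hC2 hn2 ht0 hM (hQ2 n (t n) (b n) (A n) hM (hA n))
        have h5 : 0 ≤ (b n : ℝ) / ((n : ℝ) ^ 2 / (t n : ℝ)) ^ ((5 : ℝ) / 3) := by positivity
        have h6 := pow_le_of_le_one h5 (hn.le.trans hδ1) (n := 3) (by norm_num)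
        have h7 : C2 * 8 ^ 5 * ((b n : ℝ) / ((n : ℝ) ^ 2 / (t n : ℝ)) ^ ((5 : ℝ) / 3)) ^ 3 ≤
            C2 * 8 ^ 5 * δ := mul_le_mul_of_nonneg_left (h6.trans hn.le) (by positivity)
        linarith

end Pool.Agent.J4H68.K5
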